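import Pool.Agent.H83.Wei1

set_option autoImplicit false

namespace Pool.Agent.Results.MP_743c94_lc.Reduction

open Pool.Agent.H83.Wei

/-- points of Cantor space inside Baire space -/
def Bin (p : ℕ → ℕ) : Prop := ∀ n, p n ≤ 1

def Realizes (G : (ℕ → ℕ) → ℕ → ℕ) (g : Problem) : Prop := ∀ p ∈ g.dom, G p ∈ g.sol p

/-- Weihrauch reducibility -/
def WLe (f g : Problem) : Prop :=
  ∃ (H K : (ℕ → ℕ) → ℕ → ℕ) (DH DK : Set (ℕ → ℕ)), CompOn H DH ∧ CompOn K DK ∧
    ∀ G, Realizes G g → ∀ p ∈ f.dom, p ∈ DK ∧ join p (G (K p)) ∈ DH ∧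
      H (join p (G (K p))) ∈ f.sol p

def prod (f g : Problem) : Problem where
  dom := {r | ∃ p ∈ f.dom, ∃ q ∈ g.dom, r = join p q}
  sol r := {s | (fun n => s (2 * n)) ∈ f.sol (fun n => r (2 * n)) ∧
    (fun n => s (2 * n + 1)) ∈ g.sol (fun n => r (2 * n + 1))}

def NON : Problem where
  dom := {p | Bin p}
  sol p := {q | Bin q ∧ ¬ TuringReducible (fun n => Part.some (q n)) (fun n => Part.some (p n))}

def LLPO : Problem where
  dom := {p | Bin p ∧ ∀ m n, p m = 1 → p n = 1 → m = n}
  sol p := {q | Bin q ∧ ∀ n, p (2 * n + q 0) = 0}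

def RT22 : Problem where
  dom := {c | Bin c}
  sol c := {h | Bin h ∧ {n | h n = 1}.Infinite ∧
    ∃ i, ∀ x y, x < y → h x = 1 → h y = 1 → c (Nat.pair x y) = i}

open Pool.Agent.H37

/-- the colour of the pair coded by `n`, from an initial segment of the input -/
def kf (P : List ℕ) (n : ℕ) : ℕ :=
  ((List.range n.unpair.2).find? fun s =>
      decide (n.unpair.1 ≤ s) && P.getD (2 * s + 1) 0 == 1).elim
    (spk ((List.range n.unpair.2).map fun i => P.getD (2 * i) 0) n.unpair.1) fun s => 1 - s % 2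

def kk (r : ℕ → ℕ) (n : ℕ) : ℕ :=
  ((List.range n.unpair.2).find? fun s => decide (n.unpair.1 ≤ s) && r (2 * s + 1) == 1).elim
    (spk (pre (fun i => r (2 * i)) n.unpair.2) n.unpair.1) fun s => 1 - s % 2

theorem kf_eq (r : ℕ → ℕ) {P : List ℕ} {n : ℕ} (h : ∀ i < 2 * n + 2, P.getD i 0 = r i) :
    kf P n = kk r n := by
  have := Nat.unpair_right_le n
  unfold kf kk pre
  rw [List.find?_congr fun s hs => by rw [h _ (by have := List.mem_range.1 hs; omega)],
    List.map_congr_left fun s hs => h _ (by have := List.mem_range.1 hs; omega)]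

def aK (σ : List ℕ) (n : ℕ) : Option ℕ := if 2 * n + 2 ≤ σ.length then some (kf σ n) else none

def aH (τ : List ℕ) (n : ℕ) : Option ℕ :=
  if n % 2 = 0 then τ[n + 1]? else
    ((List.range τ.length).find? fun m => decide (4 * m + 4 ≤ τ.length) &&
      decide (m.unpair.1 < m.unpair.2) && τ.getD (2 * m.unpair.1 + 1) 0 == 1 &&
      τ.getD (2 * m.unpair.2 + 1) 0 == 1).map fun m =>
    ((List.range m.unpair.1).find? fun s => τ.getD (2 * (2 * s + 1)) 0 == 1).elim
      (kf ((List.range (2 * m + 2)).map fun i => τ.getD (2 * i) 0) m) fun s => 1 - s % 2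

theorem kk_le (r : ℕ → ℕ) (n : ℕ) : kk r n ≤ 1 := by
  unfold kk
  cases (List.range n.unpair.2).find? fun s => decide (n.unpair.1 ≤ s) && r (2 * s + 1) == 1 with
  | none => exact spk_le _ _
  | some s => exact Nat.sub_le _ _

theorem kk_none (r : ℕ → ℕ) {x y : ℕ} (h : ∀ s, x ≤ s → r (2 * s + 1) ≠ 1) :
    kk r (Nat.pair x y) = spk (pre (fun i => r (2 * i)) y) x := by
  unfold kk
  rw [Nat.unpair_pair, List.find?_eq_none.2 fun s _ => by simpa using h s]
  rfl

theorem kk_some (r : ℕ → ℕ) {x y s : ℕ} (h : ∀ t, r (2 * t + 1) = 1 → t = s) (h1 : x ≤ s)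
    (h2 : s < y) (h3 : r (2 * s + 1) = 1) : kk r (Nat.pair x y) = 1 - s % 2 := by
  unfold kk
  rw [Nat.unpair_pair]
  cases e : (List.range y).find? fun s => decide (x ≤ s) && r (2 * s + 1) == 1 with
  | none =>
    have := List.find?_eq_none.1 e s (List.mem_range.2 h2)
    simp [h1, h3] at this
  | some t =>
    have := List.find?_some e
    simp only [Bool.and_eq_true, decide_eq_true_eq, beq_iff_eq] at this
    rw [h t this.2]; rfl

theorem join_even (p q : ℕ → ℕ) (n : ℕ) : join p q (2 * n) = p n := by simp [join]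

theorem join_odd (p q : ℕ → ℕ) (n : ℕ) : join p q (2 * n + 1) = q n := by
  have : (2 * n + 1) / 2 = n := by omega
  simp [join, this]

/-- `NON × LLPO` is Weihrauch reducible to Ramsey's theorem for pairs and two colours. -/
theorem result : WLe (prod NON LLPO) RT22 := by
  obtain ⟨K, k1, k2⟩ := compOn_first aK (by unfold aK kf; fun_prop)
  obtain ⟨H, h1, h2⟩ := compOn_first aH (by unfold aH kf; fun_prop)
  have k3 : ∀ r n, ∃ k, (aK (ini r k) n).isSome := fun r n =>
    ⟨2 * n + 2, by simp [aK, ini]⟩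
  have k4 : ∀ r, K r = kk r := fun r => funext fun n => by
    obtain ⟨k, hk⟩ := k2 r n (k3 r n)
    unfold aK at hk
    split_ifs at hk with h
    rw [← Option.some.inj hk]
    exact kf_eq r fun i hi => getD_pre r (by simp [ini] at h; omega) 0
  refine ⟨H, K, _, _, h1, k1, fun G hG r ⟨p, hp, q, hq, hr⟩ => ?_⟩
  obtain ⟨g1, g2, d, g3⟩ := hG (K r) (by rw [k4]; exact kk_le r)
  generalize G (K r) = h at g1 g2 g3 ⊢
  rw [k4] at g3
  have rp : (fun n => r (2 * n)) = p := funext fun n => by rw [hr, join_even]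
  have rq : ∀ n, r (2 * n + 1) = q n := fun n => by rw [hr, join_odd]
  have ev : ∀ n k, 2 * n + 1 < k → aH (ini (join r h) k) (2 * n) = some (h n) := by
    intro n k hk
    unfold aH
    rw [if_pos (by omega), show ini (join r h) k = pre (join r h) k from rfl, getElem?_pre _ hk,
      join_odd]
  have dom : ∀ n, ∃ k, (aH (ini (join r h) k) n).isSome := by
    intro n
    by_cases hn : n % 2 = 0
    · obtain ⟨m, rfl⟩ : ∃ m, n = 2 * m := ⟨n / 2, by omega⟩
      exact ⟨2 * m + 2, by rw [ev m _ (by omega)]; rfl⟩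
    · obtain ⟨x, hx⟩ := g2.nonempty
      obtain ⟨y, hy, hxy⟩ := g2.exists_gt x
      have b1 := Nat.left_le_pair x y
      have b2 := Nat.right_le_pair x y
      refine ⟨4 * Nat.pair x y + 4, ?_⟩
      unfold aH
      rw [if_neg hn, Option.isSome_map, List.find?_isSome]
      refine ⟨Nat.pair x y, by simp [ini]; omega, ?_⟩
      rw [show ini (join r h) (4 * Nat.pair x y + 4) = pre (join r h) _ from rfl, Nat.unpair_pair,
        getD_pre _ (by omega), getD_pre _ (by omega), join_odd, join_odd]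
      simpa [hxy] using ⟨hx, hy⟩
  have e1 : (fun n => H (join r h) (2 * n)) = h := funext fun n => by
    obtain ⟨k, hk⟩ := h2 _ _ (dom (2 * n))
    unfold aH at hk
    rw [if_pos (by omega)] at hk
    obtain ⟨hl, he⟩ := List.getElem?_eq_some_iff.1 hk
    rw [← he]
    simp [ini, join_odd]
  have e2 : ∀ n, H (join r h) (2 * n + 1) ≤ 1 ∧
      ∀ s, q s = 1 → H (join r h) (2 * n + 1) = 1 - s % 2 := by
    intro n
    obtain ⟨k, hk⟩ := h2 _ _ (dom (2 * n + 1))
    unfold aH at hk
    rw [if_neg (by omega)] at hk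
    obtain ⟨m, m1, m2⟩ := Option.map_eq_some_iff.1 hk
    have m3 := List.find?_some m1
    have hl : (ini (join r h) k).length = k := by simp [ini]
    simp only [Bool.and_eq_true, decide_eq_true_eq, beq_iff_eq, hl] at m3
    obtain ⟨⟨⟨a1, a2⟩, a3⟩, a4⟩ := m3
    have b1 := Nat.unpair_left_le m
    have b2 := Nat.unpair_right_le m
    rw [show ini (join r h) k = pre (join r h) k from rfl] at a3 a4 m2
    rw [getD_pre _ (by omega), join_odd] at a3 a4
    rw [kf_eq r (fun i hi => by
        rw [show (List.range (2 * m + 2)).map (fun i => (pre (join r h) k).getD (2 * i) 0) =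
          pre (fun i => (pre (join r h) k).getD (2 * i) 0) (2 * m + 2) from rfl, getD_pre _ hi,
          getD_pre _ (by omega), join_even]),
      List.find?_congr (p₂ := fun s => q s == 1) fun s hs => by
        have := List.mem_range.1 hs
        rw [getD_pre _ (by omega), join_even, rq]] at m2
    rw [← m2]
    cases e : (List.range m.unpair.1).find? fun s => q s == 1 with
    | some t =>
      have := List.find?_some e
      exact ⟨Nat.sub_le _ _, fun s hs => by rw [hq.2 s t hs (by simpa using this)]; rfl⟩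
    | none =>
      refine ⟨kk_le _ _, fun s hs => ?_⟩
      have hxs : m.unpair.1 ≤ s := by
        by_contra hc
        have := List.find?_eq_none.1 e s (List.mem_range.2 (not_le.1 hc))
        simp [hs] at this
      obtain ⟨z, z1, z2⟩ := g2.exists_gt s
      have c1 := g3 _ _ a2 a3 a4
      have c2 := g3 _ z (by omega) a3 z1
      rw [Nat.pair_unpair] at c1
      rw [kk_some r (s := s) (fun t ht => hq.2 t s (rq t ▸ ht) hs) hxs z2 (by rw [rq, hs])] at c2
      exact c1.trans c2.symm
  refine ⟨k3 r, dom, ?_, ?_⟩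
  · rw [e1, rp]
    refine ⟨g1, fun hc => ?_⟩
    obtain ⟨s, hs⟩ : ∃ s, ∀ t, s < t → q t ≠ 1 := by
      by_cases h : ∃ s, q s = 1
      · obtain ⟨s, hs⟩ := h
        exact ⟨s, fun t ht h => absurd (hq.2 t s h hs) ht.ne'⟩
      · exact ⟨0, fun t _ h' => h ⟨t, h'⟩⟩
    have hc' : CI (orc p) h := CI.of_ri hc
    obtain ⟨a, b, y, a1, a2, a3, a4, a5, a6⟩ := specker p (fun n => if s < n then h n else 0)
      (by fun_prop) ((g2.diff (Set.finite_Iic s)).mono fun n hn => by
        have : s < n := not_le.1 hn.2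
        simpa [this] using hn.1)
    have tl : ∀ n, (if s < n then h n else 0) = 1 → s < n ∧ h n = 1 := fun n hn => by
      split_ifs at hn with h
      exact ⟨h, hn⟩
    obtain ⟨b1, b2⟩ := tl a a1
    obtain ⟨b3, b4⟩ := tl b a2
    have c1 := g3 a y a4 b2 (tl y a3).2
    have c2 := g3 b y a5 b4 (tl y a3).2
    rw [kk_none r fun t ht => by rw [rq]; exact hs t (by omega), rp] at c1 c2
    exact a6 (c1.trans c2.symm)
  · refine ⟨fun n => (e2 n).1, fun n => ?_⟩
    show r (2 * (2 * n + H (join r h) (2 * 0 + 1)) + 1) = 0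
    rw [rq]
    by_contra hc
    have h3 := hq.1 (2 * n + H (join r h) (2 * 0 + 1))
    have h4 := (e2 0).2 _ (by omega : q (2 * n + H (join r h) (2 * 0 + 1)) = 1)
    omega

end Pool.Agent.Results.MP_743c94_lc.Reduction
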